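import Pool.Agent.Y129.MZ.Ratio
import Pool.Agent.H447R2.MZ.Dich

/-!
# The growth of the dimensions of the spaces of multiple zeta values and the transcendence degree
-/

set_option autoImplicit false

namespace Pool.Agent.H53.MZ

open Pool.Agent.H447R2.MZ
open Pool.Agent.Y129.MZ (ratioField exists_denom ratio_le)
open Module Cardinal

/-- nonzero elements of all weights `≥ 2` -/
theorem exists_ne (r : ℕ) (hr : 2 ≤ r) : ∃ y ∈ Zs r, y ≠ 0 := by
  rcases Nat.even_or_odd' r with ⟨i, rfl | rfl⟩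
  · exact ⟨_, Pool.Agent.Y129.MZ.pi_pow_mem i, pow_ne_zero _ Real.pi_ne_zero⟩
  · obtain ⟨j, rfl⟩ : ∃ j, i = j + 1 := ⟨i - 1, by omega⟩
    refine ⟨z3 * Real.pi ^ (2 * j), ?_, mul_ne_zero z3_pos.ne' (pow_ne_zero _ Real.pi_ne_zero)⟩
    have h := mul_mem _ _ _ _ z3_mem (Pool.Agent.Y129.MZ.pi_pow_mem j)
    rwa [show 3 + 2 * j = 2 * (j + 1) + 1 by ring] at h

/-- the products of elements of the same weight -/
theorem prod_mem {ι : Type} (s : Finset ι) (w : ℕ) (x : ι → ℝ) (hx : ∀ i, x i ∈ Zs w) (P : ι → ℕ) :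
    ∏ i ∈ s, x i ^ P i ∈ Zs (w * ∑ i ∈ s, P i) := by
  classical
  induction s using Finset.induction_on with
  | empty => simpa using one_mem
  | insert a s ha ih =>
    rw [Finset.prod_insert ha, Finset.sum_insert ha, Nat.mul_add]
    exact mul_mem _ _ _ _ (pow_mem w _ (hx a) _) ih

/-- the number of the monomials -/
theorem card_index (t m : ℕ) :
    Nat.card {P : Fin (t + 1) → ℕ // ∑ i, P i = m} = (m + t).choose t := by
  rw [← Nat.card_congr (Sym.equivNatSumOfFintype (Fin (t + 1)) m), Nat.card_eq_fintype_card,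
    Sym.card_sym_eq_choose, Fintype.card_fin, show t + 1 + m - 1 = t + m by omega,
    Nat.add_comm m t, Nat.choose_symm_add]

/-- **The Hilbert function bound.** -/
theorem hilbert {t w : ℕ} (x₀ : ℝ) (x : Fin t → ℝ) (h0 : x₀ ∈ Zs w) (hx : ∀ i, x i ∈ Zs w)
    (hne : x₀ ≠ 0) (hai : AlgebraicIndependent ℚ (fun i => x i / x₀)) (n : ℕ) (hn : 2 ≤ n) :
    ((((n - 2) / w + t).choose t : ℕ) : Cardinal) ≤ Module.rank ℚ (Zs n) := by
  classical
  set m := (n - 2) / w with hm
  have hwm : w * m ≤ n - 2 := Nat.mul_div_le _ _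
  obtain ⟨y, hy, hy0⟩ := exists_ne (n - w * m) (by omega)
  let u : Fin t → ℝ := fun i => x i / x₀
  let X : Fin (t + 1) → ℝ := Fin.cons x₀ x
  have hX : ∀ i, X i ∈ Zs w := fun i => by
    refine Fin.cases ?_ (fun j => ?_) i
    · exact h0
    · exact hx j
  let J := {P : Fin (t + 1) → ℕ // ∑ i, P i = m}
  let v : J → ℝ := fun P => y * ∏ i, X i ^ P.1 i
  have hv : ∀ P, v P ∈ Zs n := fun P => by
    have h1 := mul_mem _ _ _ _ hy (prod_mem Finset.univ w X hX P.1)
    rwa [P.2, Nat.sub_add_cancel (by omega)] at h1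
  let e : J → (Fin t →₀ ℕ) := fun P => Finsupp.equivFunOnFinite.symm fun i => P.1 i.succ
  have he : Function.Injective e := by
    intro P Q h
    have h1 : (fun i : Fin t => P.1 i.succ) = fun i => Q.1 i.succ :=
      Finsupp.equivFunOnFinite.symm.injective h
    apply Subtype.ext
    funext i
    refine Fin.cases ?_ (fun j => congrFun h1 j) i
    have h2 := P.2
    have h3 := Q.2
    rw [Fin.sum_univ_succ] at h2 h3
    have h4 : ∑ i : Fin t, P.1 i.succ = ∑ i : Fin t, Q.1 i.succ :=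
      Finset.sum_congr rfl fun j _ => congrFun h1 j
    omega
  have hvP : ∀ P : J, v P = (y * x₀ ^ m) * MvPolynomial.aeval u (MvPolynomial.monomial (e P) (1 : ℚ)) := by
    intro P
    have h1 : MvPolynomial.aeval u (MvPolynomial.monomial (e P) (1 : ℚ)) =
        ∏ i : Fin t, u i ^ P.1 i.succ := by
      rw [MvPolynomial.aeval_monomial, map_one, one_mul,
        Finsupp.prod_fintype _ _ (fun i => pow_zero _)]
      rfl
    have h2 : ∏ i, X i ^ P.1 i = x₀ ^ m * ∏ i : Fin t, u i ^ P.1 i.succ := by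
      rw [Fin.prod_univ_succ]
      have h3 : ∀ i : Fin t, X i.succ ^ P.1 i.succ = x₀ ^ P.1 i.succ * u i ^ P.1 i.succ := by
        intro i
        rw [← mul_pow]
        congr 1
        change x i = x₀ * (x i / x₀)
        rw [mul_div_cancel₀ _ hne]
      rw [Finset.prod_congr rfl fun i _ => h3 i, Finset.prod_mul_distrib, ← mul_assoc,
        Finset.prod_pow_eq_pow_sum]
      congr 1
      change x₀ ^ P.1 0 * x₀ ^ (∑ i : Fin t, P.1 i.succ) = x₀ ^ m
      rw [← pow_add, ← Fin.sum_univ_succ, P.2]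
    change y * ∏ i, X i ^ P.1 i = _
    rw [h1, h2, mul_assoc]
  have hli : LinearIndependent ℚ v := by
    have h1 : LinearIndependent ℚ (fun s : Fin t →₀ ℕ =>
        MvPolynomial.aeval u (MvPolynomial.monomial s (1 : ℚ))) := by
      have h2 := (MvPolynomial.basisMonomials (Fin t) ℚ).linearIndependent.map'
        (MvPolynomial.aeval u).toLinearMap (LinearMap.ker_eq_bot.2 hai)
      have h3 : ⇑(MvPolynomial.aeval u).toLinearMap ∘ ⇑(MvPolynomial.basisMonomials (Fin t) ℚ) =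
          fun s : Fin t →₀ ℕ => MvPolynomial.aeval u (MvPolynomial.monomial s (1 : ℚ)) := by
        funext s
        simp
      rwa [h3] at h2
    have h2 := (h1.comp e he).map' (LinearMap.mulLeft ℚ (y * x₀ ^ m))
      (LinearMap.ker_eq_bot.2 (mul_right_injective₀ (mul_ne_zero hy0 (pow_ne_zero _ hne))))
    have h3 : v = ⇑(LinearMap.mulLeft ℚ (y * x₀ ^ m)) ∘
        ((fun s : Fin t →₀ ℕ => MvPolynomial.aeval u (MvPolynomial.monomial s (1 : ℚ))) ∘ e) := by
      funext P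
      rw [hvP P]
      rfl
    rw [h3]
    exact h2
  let w' : J → Zs n := fun P => ⟨v P, hv P⟩
  have hw' : LinearIndependent ℚ w' := LinearIndependent.of_comp (Zs n).subtype hli
  have h1 := hw'.cardinal_lift_le_rank
  have h2 : #J = (((m + t).choose t : ℕ) : Cardinal) := by
    have : Finite J := Finite.of_equiv _ (Sym.equivNatSumOfFintype (Fin (t + 1)) m)
    rw [← Nat.cast_card, card_index]
  rw [h2] at h1
  simpa using h1

/-- the set of the ratios -/
def Ratios : Set ℝ := {r | ∃ w, ∃ x ∈ Zs w, ∃ y ∈ Zs w, y ≠ 0 ∧ r = x / y}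

theorem alg_of_pi {w : ℕ} {z : ℝ} (hz : z ∈ Zs w) {S : Set ℝ} (hS : Ratios ⊆ S)
    (hpi : IsAlgebraic (Algebra.adjoin ℚ S) Real.pi) :
    IsAlgebraic (Algebra.adjoin ℚ S) z := by
  have h1 : z ^ 2 / Real.pi ^ (2 * w) ∈ Algebra.adjoin ℚ S := by
    refine Algebra.subset_adjoin (hS ?_)
    have h2 := pow_mem w z hz 2
    rw [mul_comm] at h2
    exact ⟨2 * w, _, h2, _, Pool.Agent.Y129.MZ.pi_pow_mem w, pow_ne_zero _ Real.pi_ne_zero, rfl⟩
  have h2 : z ^ 2 = algebraMap (Algebra.adjoin ℚ S) ℝ ⟨_, h1⟩ * Real.pi ^ (2 * w) := by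
    change z ^ 2 = z ^ 2 / Real.pi ^ (2 * w) * Real.pi ^ (2 * w)
    rw [div_mul_cancel₀ _ (pow_ne_zero _ Real.pi_ne_zero)]
  have h3 : IsAlgebraic (Algebra.adjoin ℚ S) (z ^ 2) := by
    rw [h2]
    exact (isAlgebraic_algebraMap _).mul (hpi.pow _)
  exact IsAlgebraic.of_pow (by norm_num) h3

theorem pi_alg_of_not_direct {p : ℕ} (h : ¬ Pool.Agent.Y129.MZ.Direct p) :
    IsAlgebraic (Algebra.adjoin ℚ Ratios) Real.pi := by
  obtain ⟨P, hP, -, h1⟩ := Pool.Agent.Y129.MZ.algebraic_of_not_direct h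
  have hmem : ∀ i, (P.coeff i : ℝ) ∈ Algebra.adjoin ℚ Ratios := fun i =>
    Algebra.subset_adjoin (ratio_le (P.coeff i).2)
  refine IsAlgebraic.of_pow (by norm_num : 0 < 2)
    ⟨∑ i ∈ Finset.range (P.natDegree + 1), Polynomial.monomial i
      (⟨(P.coeff i : ℝ), hmem i⟩ : Algebra.adjoin ℚ Ratios), ?_, ?_⟩
  · intro h0
    have h2 := congrArg (fun Q => Polynomial.coeff Q P.natDegree) h0
    simp only [Polynomial.finsetSum_coeff, Polynomial.coeff_monomial, Finset.sum_ite_eq',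
      Finset.mem_range, Nat.lt_succ_self, if_true, Polynomial.coeff_zero] at h2
    have h3 : (P.coeff P.natDegree : ℝ) = 0 := congrArg Subtype.val h2
    have h4 : P.coeff P.natDegree = 0 := Subtype.ext h3
    exact hP (Polynomial.leadingCoeff_eq_zero.1 h4)
  · rw [Polynomial.aeval_eq_sum_range] at h1
    rw [map_sum, ← h1]
    refine Finset.sum_congr rfl fun i _ => ?_
    rw [Polynomial.aeval_monomial]
    rfl

/-- `t` algebraically independent ratios have a common denominator of positive weight -/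
theorem common {t : ℕ} (r : Fin t → ℝ) (hr : ∀ i, r i ∈ Ratios) :
    ∃ w, 1 ≤ w ∧ ∃ x₀ ∈ Zs w, x₀ ≠ 0 ∧ ∃ x : Fin t → ℝ, (∀ i, x i ∈ Zs w) ∧
      ∀ i, x i / x₀ = r i := by
  classical
  have hrf : ∀ i, r i ∈ ratioField := fun i => by
    obtain ⟨w, x, hx, y, hy, -, h⟩ := hr i
    rw [h]
    exact Pool.Agent.Y129.MZ.div_mem_ratio hx hy
  obtain ⟨W, y, hy, hy0, h⟩ := exists_denom
    (∑ i : Fin t, Polynomial.monomial (i : ℕ) (⟨r i, hrf i⟩ : ratioField))
  have hpi0 : Real.pi ^ 2 ≠ 0 := pow_ne_zero _ Real.pi_ne_zero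
  refine ⟨W + 2, by omega, y * Real.pi ^ 2, mul_mem _ _ _ _ hy pi_sq_mem,
    mul_ne_zero hy0 hpi0, fun i => y * r i * Real.pi ^ 2, fun i => ?_, fun i => ?_⟩
  · refine mul_mem _ _ _ _ ?_ pi_sq_mem
    have h1 := h (i : ℕ)
    rw [Polynomial.finsetSum_coeff] at h1
    rw [Finset.sum_eq_single i] at h1
    · rwa [Polynomial.coeff_monomial, if_pos rfl] at h1
    · intro j _ hj
      rw [Polynomial.coeff_monomial, if_neg]
      exact fun hij => hj (Fin.ext hij)
    · intro h2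
      exact absurd (Finset.mem_univ i) h2
  · field_simp

/-- independent sets of ratios -/
theorem exists_ratios {t : ℕ} (h : (t : ℕ∞) ≤ (AlgebraicIndependent.matroid ℚ ℝ).eRk Ratios) :
    ∃ r : Fin t → ℝ, (∀ i, r i ∈ Ratios) ∧ AlgebraicIndependent ℚ r := by
  obtain ⟨I, hI, hind, hcard⟩ := Matroid.le_eRk_iff.1 h
  rw [AlgebraicIndependent.matroid_indep_iff] at hind
  have hfin : I.Finite := Set.finite_of_encard_eq_coe hcard
  have : Fintype I := hfin.fintype
  have hc : Fintype.card I = t := by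
    have h1 : I.ncard = t := by
      rw [Set.ncard, hcard]
      rfl
    rw [← h1, Set.ncard_eq_toFinset_card' I, Set.toFinset_card]
  let f : Fin t ≃ I := (Fintype.equivFinOfCardEq hc).symm
  refine ⟨fun i => (f i : ℝ), fun i => hI (f i).2, ?_⟩
  exact hind.comp f f.injective

/-- many algebraically independent elements: upper bound by the rank of a set over which all are algebraic -/
theorem le_eRk {t : ℕ} (z : Fin t → ℝ) (hz : AlgebraicIndependent ℚ z) (S : Set ℝ)
    (h : ∀ i, IsAlgebraic (Algebra.adjoin ℚ S) (z i)) :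
    (t : ℕ∞) ≤ (AlgebraicIndependent.matroid ℚ ℝ).eRk S := by
  have hind : (AlgebraicIndependent.matroid ℚ ℝ).Indep (Set.range z) := by
    rw [AlgebraicIndependent.matroid_indep_iff]
    exact hz.coe_range
  have h1 : Set.range z ⊆ (AlgebraicIndependent.matroid ℚ ℝ).closure S := by
    rw [AlgebraicIndependent.matroid_closure_eq]
    rintro _ ⟨i, rfl⟩
    exact h i
  have h2 := hind.encard_le_eRk_of_subset h1
  rw [Matroid.eRk_closure_eq] at h2
  have h3 : (Set.range z).encard = t := by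
    rw [← Set.image_univ, hz.injective.encard_image, Set.encard_univ]
    simp
  rwa [h3] at h2

/-- **Growth.** -/
theorem growth_gen {t : ℕ} (w : Fin (t + 1) → ℕ) (z : Fin (t + 1) → ℝ) (hz : ∀ i, z i ∈ Zs (w i))
    (hai : AlgebraicIndependent ℚ z) : ∃ k : ℕ, 1 ≤ k ∧ ∀ n : ℕ, 2 ≤ n →
      ((((n - 2) / k + t).choose t : ℕ) : Cardinal) ≤ Module.rank ℚ (Zs n) := by
  have h1 : ((t + 1 : ℕ) : ℕ∞) ≤ (AlgebraicIndependent.matroid ℚ ℝ).eRk (insert Real.pi Ratios) := by
    refine le_eRk z hai _ fun i => alg_of_pi (hz i) (Set.subset_insert _ _) ?_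
    have h2 : Real.pi ∈ Algebra.adjoin ℚ (insert Real.pi Ratios) :=
      Algebra.subset_adjoin (Set.mem_insert _ _)
    exact isAlgebraic_algebraMap (⟨_, h2⟩ : Algebra.adjoin ℚ (insert Real.pi Ratios))
  have h2 := h1.trans (Matroid.eRk_insert_le_add_one _ _ _)
  have h3 : (t : ℕ∞) ≤ (AlgebraicIndependent.matroid ℚ ℝ).eRk Ratios := by
    push_cast at h2
    exact (ENat.add_le_add_iff_right (by simp)).1 h2
  obtain ⟨r, hr, hri⟩ := exists_ratios h3
  obtain ⟨k, hk, x₀, h0, hne, x, hx, hxr⟩ := common r hr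
  refine ⟨k, hk, fun n hn => hilbert x₀ x h0 hx hne ?_ n hn⟩
  have : (fun i => x i / x₀) = r := funext hxr
  rwa [this]

/-- **Growth, if the sum is not direct.** -/
theorem growth_nd {p t : ℕ} (hp : ¬ Direct p) (w : Fin t → ℕ) (z : Fin t → ℝ)
    (hz : ∀ i, z i ∈ Zs (w i)) (hai : AlgebraicIndependent ℚ z) : ∃ k : ℕ, 1 ≤ k ∧ ∀ n : ℕ, 2 ≤ n →
      ((((n - 2) / k + t).choose t : ℕ) : Cardinal) ≤ Module.rank ℚ (Zs n) := by
  have hpi := pi_alg_of_not_direct (p := p) hp
  have h3 : (t : ℕ∞) ≤ (AlgebraicIndependent.matroid ℚ ℝ).eRk Ratios :=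
    le_eRk z hai _ fun i => alg_of_pi (hz i) subset_rfl hpi
  obtain ⟨r, hr, hri⟩ := exists_ratios h3
  obtain ⟨k, hk, x₀, h0, hne, x, hx, hxr⟩ := common r hr
  refine ⟨k, hk, fun n hn => hilbert x₀ x h0 hx hne ?_ n hn⟩
  have : (fun i => x i / x₀) = r := funext hxr
  rwa [this]

end Pool.Agent.H53.MZ
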